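import Pool.Agent.helper65.GD.Spec

set_option autoImplicit false

/-! Row gdm:MIN (helper79). -/

namespace Pool.Agent.GD

open Finset Metric Filter Topology

theorem MIN : MIN_stmt := by
  intro P hP h z hz
  have key : ∀ ε : ℝ, 0 < ε → -ε ≤ (P z).re := by
    intro ε hε
    obtain ⟨ρ, hρ, hb⟩ := h ε hε
    have hz1 : ‖z‖ < 1 := by rwa [mem_ball_zero_iff] at hz
    have hz0 : 0 ≤ ‖z‖ := norm_nonneg z
    let r : ℝ := max ((‖z‖ + 1) / 2) ((ρ + 1) / 2)
    have hr1 : r < 1 := max_lt (by linarith) (by linarith)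
    have hr2 : ‖z‖ < r := lt_of_lt_of_le (by linarith) (le_max_left _ _)
    have hr3 : ρ < r := lt_of_lt_of_le (by linarith) (le_max_right _ _)
    have hr0 : 0 < r := lt_of_le_of_lt hz0 hr2
    have hsub : closedBall (0 : ℂ) r ⊆ ball 0 1 := closedBall_subset_ball hr1
    have hd : DiffContOnCl ℂ (fun w => Complex.exp (-P w)) (ball 0 r) := by
      apply DifferentiableOn.diffContOnCl
      rw [closure_ball (0 : ℂ) hr0.ne']
      exact ((hP.mono hsub).neg).cexp
    have hC : ∀ w ∈ frontier (ball (0 : ℂ) r), ‖Complex.exp (-P w)‖ ≤ Real.exp ε := by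
      intro w hw
      rw [frontier_ball (0 : ℂ) hr0.ne', mem_sphere_zero_iff_norm] at hw
      rw [Complex.norm_exp, Complex.neg_re]
      have := hb w (by rw [hw]; exact hr3) (by rw [hw]; exact hr1)
      exact Real.exp_le_exp.2 (by linarith)
    have hzc : z ∈ closure (ball (0 : ℂ) r) := subset_closure (by
      rw [mem_ball_zero_iff]
      exact hr2)
    have := Complex.norm_le_of_forall_mem_frontier_norm_le isBounded_ball hd hC hzc
    rw [Complex.norm_exp, Complex.neg_re, Real.exp_le_exp] at this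
    linarith
  by_contra hneg
  have := key (-(P z).re / 2) (by linarith [not_le.1 hneg])
  linarith [not_le.1 hneg]

end Pool.Agent.GD
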