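import Pool.Agent.helper97.GD.SpecB

/-!
Row BSH of project GD: shifts, small denominators.
-/

set_option autoImplicit false

open Filter

namespace Pool.Agent.GD

theorem BSH_abs (hGSM : GSM_stmt) (U : Ultrafilter ℕ) (N : ℕ → ℕ) (hN : Tendsto N (U : Filter ℕ) atTop)
    (f : ℕ → ℤ) (hf : Sm U N f) : Sm U N (fun k => |f k|) := by
  refine (hGSM U N hN).2.2.1 f _ 1 hf (Eventually.of_forall fun k => ?_)
  rw [abs_abs]
  push_cast
  linarith

theorem BSH_key (hGSM : GSM_stmt) (hGNG : GNG_stmt) (hBLV : BLV_stmt) (U : Ultrafilter ℕ) (N : ℕ → ℕ)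
    (hN : Tendsto N (U : Filter ℕ) atTop) (n : ℕ) (E : ℕ → ℤ) (hE : Lw U N n E)
    (hE0 : ∀ᶠ k in (U : Filter ℕ), 0 ≤ E k) (l : List ((ℕ → ℤ) × (ℕ → ℤ)))
    (hl : ∀ x ∈ l, Sm U N x.1 ∧ Lw U N n x.2) :
    ∃ (l' : List ((ℕ → ℤ) × (ℕ → ℤ))) (b : ℕ → ℤ), (∀ x ∈ l', Sm U N x.1 ∧ Lw U N n x.2) ∧ Sm U N b ∧
      (∀ᶠ k in (U : Filter ℕ), |sv l k - 2 ^ (E k).toNat * sv l' k| ≤ b k * 2 ^ (E k).toNat) := by
  obtain ⟨s1, s2, s3, s4, -, -⟩ := hGSM U N hN
  obtain ⟨-, -, -, g4, -, -, g7, -⟩ := hGNG U N hN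
  induction l with
  | nil =>
    refine ⟨[], fun _ => 0, by simp, s1 0, Eventually.of_forall fun k => ?_⟩
    simp [sv_nil]
  | cons x m ih =>
    obtain ⟨l', b, h1, h2, h3⟩ := ih fun y hy => hl y (List.mem_cons_of_mem _ hy)
    obtain ⟨hx1, hx2⟩ := hl x List.mem_cons_self
    by_cases hF : Fr U N (fun k => x.2 k - E k)
    · refine ⟨(x.1, fun k => x.2 k - E k) :: l', b, ?_, h2, ?_⟩
      · intro y hy
        rcases List.mem_cons.mp hy with rfl | hy
        · exact ⟨hx1, ((hBLV U N hN n).2.2.2.1 _ _ hx2 hE).2.1⟩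
        · exact h1 y hy
      · filter_upwards [h3, hE0, g7 _ (fun _ => 0) hF ((hGNG U N hN).1 0)] with k hk hk0 hkx
        rw [sv_cons, sv_cons]
        have e1 : (x.2 k).toNat = (E k).toNat + (x.2 k - E k).toNat := by
          rw [abs_zero] at hkx
          omega
        have e2 : x.1 k * 2 ^ (x.2 k).toNat + sv m k -
            2 ^ (E k).toNat * (x.1 k * 2 ^ (x.2 k - E k).toNat + sv l' k) = sv m k - 2 ^ (E k).toNat * sv l' k := by
          rw [e1, pow_add]
          ring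
        show |x.1 k * 2 ^ (x.2 k).toNat + sv m k -
            2 ^ (E k).toNat * (x.1 k * 2 ^ (x.2 k - E k).toNat + sv l' k)| ≤ _
        rw [e2]
        exact hk
    · have hq : Sm U N (fun k => 2 ^ (x.2 k - E k).toNat) := by
        rcases g4 (fun k => x.2 k - E k) with h | h | h
        · exact (s4 _ h).2
        · exact absurd h hF
        · refine s3 (fun _ => 1) _ 1 (s1 1) ?_
          filter_upwards [g7 _ (fun _ => 0) h ((hGNG U N hN).1 0)] with k hk
          rw [abs_zero] at hk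
          have : (x.2 k - E k).toNat = 0 := by omega
          rw [this]
          norm_num
      have hb : Sm U N (fun k => b k + |x.1 k| * 2 ^ (x.2 k - E k).toNat) :=
        (s2 _ _ h2 (s2 _ _ (BSH_abs hGSM U N hN _ hx1) hq).2.2).1
      refine ⟨l', _, h1, hb, ?_⟩
      filter_upwards [h3, hE0] with k hk hk0
      rw [sv_cons]
      have e1 : (x.2 k).toNat ≤ (x.2 k - E k).toNat + (E k).toNat := by omega
      have e2 : (2 : ℤ) ^ (x.2 k).toNat ≤ 2 ^ (x.2 k - E k).toNat * 2 ^ (E k).toNat := by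
        rw [← pow_add]
        exact pow_le_pow_right₀ (by norm_num) e1
      have e3 : x.1 k * 2 ^ (x.2 k).toNat + sv m k - 2 ^ (E k).toNat * sv l' k =
          x.1 k * 2 ^ (x.2 k).toNat + (sv m k - 2 ^ (E k).toNat * sv l' k) := by ring
      rw [e3]
      refine (abs_add_le _ _).trans ?_
      rw [abs_mul, abs_of_nonneg (by positivity : (0 : ℤ) ≤ 2 ^ (x.2 k).toNat)]
      have e4 : |x.1 k| * 2 ^ (x.2 k).toNat ≤ |x.1 k| * (2 ^ (x.2 k - E k).toNat * 2 ^ (E k).toNat) :=
        mul_le_mul_of_nonneg_left e2 (abs_nonneg _)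
      calc |x.1 k| * 2 ^ (x.2 k).toNat + |sv m k - 2 ^ (E k).toNat * sv l' k|
          ≤ |x.1 k| * (2 ^ (x.2 k - E k).toNat * 2 ^ (E k).toNat) + b k * 2 ^ (E k).toNat := add_le_add e4 hk
        _ = (b k + |x.1 k| * 2 ^ (x.2 k - E k).toNat) * 2 ^ (E k).toNat := by ring

theorem BSH (hGSM : GSM_stmt) (hGNG : GNG_stmt) (hBLV : BLV_stmt) : BSH_stmt := by
  intro U N hN n f E hf0 hE hE0
  obtain ⟨d, l, hd, hd0, hl, hf⟩ := hf0
  obtain ⟨l', b, h1, h2, h3⟩ := BSH_key hGSM hGNG hBLV U N hN n E hE hE0 l hl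
  obtain ⟨s1, s2, s3, s4, -, -⟩ := hGSM U N hN
  have hc : Sm U N (fun k => d k * (f k / 2 ^ (E k).toNat) - sv l' k) := by
    have hb : Sm U N (fun k => |b k| + |d k|) :=
      (s2 _ _ (BSH_abs hGSM U N hN _ h2) (BSH_abs hGSM U N hN _ hd)).1
    refine s3 _ _ 1 hb ?_
    filter_upwards [h3, hf] with k hk hfk
    have hP : (0 : ℤ) < 2 ^ (E k).toNat := by positivity
    have hr0 := Int.emod_nonneg (f k) hP.ne'
    have hr1 := Int.emod_lt_of_pos (f k) hP
    have hdm := Int.mul_ediv_add_emod (f k) (2 ^ (E k).toNat)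
    set P : ℤ := 2 ^ (E k).toNat with hPd
    set g : ℤ := f k / P with hg
    set r : ℤ := f k % P with hr
    have e1 : P * (d k * g - sv l' k) = (sv l k - P * sv l' k) - d k * r := by
      have : d k * f k = d k * (P * g + r) := by rw [hdm]
      rw [hfk] at this
      linarith
    have e2 : |P * (d k * g - sv l' k)| ≤ (|b k| + |d k|) * P := by
      rw [e1]
      have a2 : |sv l k - P * sv l' k| ≤ |b k| * P := hk.trans (mul_le_mul_of_nonneg_right (le_abs_self _) hP.le)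
      have a3 : |d k * r| ≤ |d k| * P := by
        rw [abs_mul, abs_of_nonneg hr0]
        exact mul_le_mul_of_nonneg_left hr1.le (abs_nonneg _)
      have a4 := abs_sub (sv l k - P * sv l' k) (d k * r)
      calc |(sv l k - P * sv l' k) - d k * r| ≤ |sv l k - P * sv l' k| + |d k * r| := a4
        _ ≤ |b k| * P + |d k| * P := by linarith
        _ = _ := by ring
    rw [abs_mul, abs_of_pos hP] at e2
    have e3 : |d k * g - sv l' k| ≤ |b k| + |d k| := by
      by_contra hcon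
      push Not at hcon
      have := mul_lt_mul_of_pos_left hcon hP
      linarith
    have e4 : (0 : ℤ) ≤ |b k| + |d k| := by positivity
    show |d k * g - sv l' k| ≤ (1 : ℕ) * (|(|b k| + |d k|)| + 1)
    rw [abs_of_nonneg e4]
    push_cast
    linarith
  refine ⟨d, (fun k => d k * (f k / 2 ^ (E k).toNat) - sv l' k, fun _ => 0) :: l', hd, hd0, ?_, ?_⟩
  · intro x hx
    rcases List.mem_cons.mp hx with rfl | hx
    · exact ⟨hc, (hBLV U N hN n).2.1 _ (s1 0)⟩
    · exact h1 x hx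
  · refine Eventually.of_forall fun k => ?_
    rw [sv_cons]
    simp

end Pool.Agent.GD
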