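import Pool.Agent.helper65.GD.SpecD

set_option autoImplicit false

namespace Pool.Agent.GD

open Finset Metric Filter Topology

/-- the product of the factors `1 - conj(a) z` -/
noncomputable def RPA_V {p : ℕ} (l : Fin p) (a : Fin p → ℂ) (z : ℂ) : ℂ :=
  ∏ l' ∈ univ.erase l, (1 - (starRingEnd ℂ) (a l') * z)

theorem RPA_fac_ne (a z : ℂ) (ha : ‖a‖ < 1) (hz : ‖z‖ ≤ 1) : 1 - (starRingEnd ℂ) a * z ≠ 0 := by
  intro h
  have h1 : (starRingEnd ℂ) a * z = 1 := (sub_eq_zero.1 h).symm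
  have h2 : ‖(starRingEnd ℂ) a * z‖ = 1 := by rw [h1, norm_one]
  rw [norm_mul, RCLike.norm_conj] at h2
  have h3 : ‖a‖ * ‖z‖ ≤ ‖a‖ * 1 := mul_le_mul_of_nonneg_left hz (norm_nonneg _)
  linarith

theorem RPA_V_ne {p : ℕ} (l : Fin p) (a : Fin p → ℂ) (ha : ∀ l, ‖a l‖ < 1) (z : ℂ) (hz : ‖z‖ ≤ 1) :
    RPA_V l a z ≠ 0 :=
  prod_ne_zero_iff.2 fun l' _ => RPA_fac_ne (a l') z (ha l') hz

theorem RPA_V_diff {p : ℕ} (l : Fin p) (a : Fin p → ℂ) : Differentiable ℂ (RPA_V l a) := by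
  unfold RPA_V
  fun_prop

theorem RPA_V_zero {p : ℕ} (l : Fin p) (a : Fin p → ℂ) : RPA_V l a 0 = 1 := by
  unfold RPA_V
  refine prod_eq_one fun l' _ => ?_
  rw [mul_zero, sub_zero]

theorem RPA_circle (z a : ℂ) (hz : ‖z‖ = 1) :
    (z - a) * (1 - (starRingEnd ℂ) a * z) = z * (Complex.normSq (1 - (starRingEnd ℂ) a * z) : ℂ) := by
  have h1 : z * (starRingEnd ℂ) z = 1 := by
    rw [Complex.mul_conj, Complex.normSq_eq_norm_sq, hz]
    norm_num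
  rw [← Complex.mul_conj, map_sub, map_one, map_mul, Complex.conj_conj]
  linear_combination (a * (1 - (starRingEnd ℂ) a * z)) * h1

theorem RPA_prod {p : ℕ} (l : Fin p) (a : Fin p → ℂ) (ha : ∀ l, ‖a l‖ < 1) (hl : a l = 0) (z : ℂ)
    (hz : ‖z‖ = 1) : ∃ A : ℝ, 0 < A ∧ (∏ l', (z - a l')) * RPA_V l a z = z * z ^ (p - 1) * A := by
  refine ⟨∏ l' ∈ univ.erase l, Complex.normSq (1 - (starRingEnd ℂ) (a l') * z), ?_, ?_⟩
  · exact prod_pos fun l' _ => Complex.normSq_pos.2 (RPA_fac_ne (a l') z (ha l') hz.le)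
  · rw [← mul_prod_erase univ (fun l' => z - a l') (mem_univ l), hl, sub_zero, mul_assoc]
    unfold RPA_V
    rw [← prod_mul_distrib, prod_congr rfl (fun l' _ => RPA_circle z (a l') hz), prod_mul_distrib,
      prod_const, card_erase_of_mem (mem_univ l), card_univ, Fintype.card_fin, ← mul_assoc]
    push_cast
    rfl

theorem RPA_root {p : ℕ} (a : Fin p → ℂ) (u : ℂ) (hu : u ≠ 0) (h : (∏ l, (0 - a l)) * u = 0) :
    ∃ l, a l = 0 := by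
  have h1 := (mul_eq_zero.1 h).resolve_right hu
  obtain ⟨l, _, hl⟩ := prod_eq_zero_iff.1 h1
  exact ⟨l, by rw [zero_sub, neg_eq_zero] at hl; exact hl⟩

/-- positivity on the circle -/
theorem RPA_bdry {p : ℕ} (l₁ l₀ : Fin p) (a b : Fin p → ℂ) (ha : ∀ l, ‖a l‖ < 1) (hb : ∀ l, ‖b l‖ < 1)
    (hl₁ : a l₁ = 0) (hl₀ : b l₀ = 0) (z g U h F : ℂ) (hz : ‖z‖ = 1) (hg : g ≠ 0)
    (hF : F = (∏ l, (z - a l)) * g) (hh : h = (∏ l, (z - b l)) * U) (hpos : 0 < (h / F).re) :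
    0 < (U * RPA_V l₁ a z / (RPA_V l₀ b z * g)).re := by
  obtain ⟨A, hA, hA2⟩ := RPA_prod l₁ a ha hl₁ z hz
  obtain ⟨B, hB, hB2⟩ := RPA_prod l₀ b hb hl₀ z hz
  have hz0 : z ≠ 0 := by
    intro h0
    rw [h0, norm_zero] at hz
    exact zero_ne_one hz
  have hzz : z * z ^ (p - 1) ≠ 0 := mul_ne_zero hz0 (pow_ne_zero _ hz0)
  have hBc : (B : ℂ) ≠ 0 := Complex.ofReal_ne_zero.2 hB.ne'
  have hAc : (A : ℂ) ≠ 0 := Complex.ofReal_ne_zero.2 hA.ne'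
  have hPA : (∏ l, (z - a l)) ≠ 0 := by
    intro h0
    rw [h0, zero_mul] at hA2
    exact (mul_ne_zero hzz hAc) hA2.symm
  have hPB : (∏ l, (z - b l)) ≠ 0 := by
    intro h0
    rw [h0, zero_mul] at hB2
    exact (mul_ne_zero hzz hBc) hB2.symm
  have hW : RPA_V l₀ b z ≠ 0 := RPA_V_ne l₀ b hb z hz.le
  have e : U * RPA_V l₁ a z / (RPA_V l₀ b z * g) = (h / F) * ((A / B : ℝ) : ℂ) := by
    have e1 : RPA_V l₁ a z = z * z ^ (p - 1) * A / ∏ l, (z - a l) := by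
      rw [← hA2, mul_div_cancel_left₀ _ hPA]
    have e2 : RPA_V l₀ b z = z * z ^ (p - 1) * B / ∏ l, (z - b l) := by
      rw [← hB2, mul_div_cancel_left₀ _ hPB]
    rw [e1, e2, hF, hh]
    push_cast
    field_simp
  rw [e, Complex.re_mul_ofReal]
  exact mul_pos hpos (div_pos hA hB)

/-- the minimum principle -/
theorem RPA_min (Q : ℂ → ℂ) (hQ : DifferentiableOn ℂ Q (closedBall 0 1))
    (hpos : ∀ z : ℂ, ‖z‖ = 1 → 0 < (Q z).re) : ∀ z : ℂ, ‖z‖ ≤ 1 → 0 < (Q z).re := by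
  have hc : ContinuousOn (fun z => (Q z).re) (sphere (0 : ℂ) 1) :=
    Complex.continuous_re.comp_continuousOn (hQ.continuousOn.mono sphere_subset_closedBall)
  obtain ⟨z₀, hz₀, hmin⟩ := (isCompact_sphere (0 : ℂ) 1).exists_isMinOn
    ⟨1, by rw [mem_sphere_zero_iff_norm, norm_one]⟩ hc
  have hδ : 0 < (Q z₀).re := hpos z₀ (mem_sphere_zero_iff_norm.1 hz₀)
  intro z hz
  have hd : DiffContOnCl ℂ (fun z => Complex.exp (-Q z)) (ball (0 : ℂ) 1) := by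
    refine DifferentiableOn.diffContOnCl ?_
    rw [closure_ball (0 : ℂ) one_ne_zero]
    exact hQ.neg.cexp
  have h1 : ‖Complex.exp (-Q z)‖ ≤ Real.exp (-(Q z₀).re) := by
    refine Complex.norm_le_of_forall_mem_frontier_norm_le isBounded_ball hd ?_
      (by rw [closure_ball (0 : ℂ) one_ne_zero]; exact mem_closedBall_zero_iff.2 hz)
    intro y hy
    rw [frontier_ball (0 : ℂ) one_ne_zero] at hy
    rw [Complex.norm_exp, Complex.neg_re]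
    exact Real.exp_le_exp.2 (neg_le_neg (hmin hy))
  rw [Complex.norm_exp, Complex.neg_re, Real.exp_le_exp] at h1
  linarith

theorem RPA (hREQ : REQ_stmt) : RPA_stmt := by
  intro f F p R a b g U hC
  have hR := hC.one_lt
  have hsub : closedBall (0 : ℂ) 1 ⊆ ball 0 R := closedBall_subset_ball hR
  have hsub1 : ball (0 : ℂ) 1 ⊆ ball 0 R := ball_subset_ball hR.le
  have h0R : (0 : ℂ) ∈ ball (0 : ℂ) R := mem_ball_self (by linarith)
  have hg0 : g 0 ≠ 0 := hC.g_ne 0 h0R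
  obtain ⟨l₁, hl₁⟩ := RPA_root a (g 0) hg0 (by rw [← hC.F_eq 0 h0R]; exact hC.star.map_zero)
  obtain ⟨l₀, hl₀⟩ := RPA_root b (U 0) (hC.U_ne 0 h0R) (by rw [← hC.f_eq 0 h0R, zero_mul])
  obtain ⟨Q₀, hQ₀⟩ : ∃ Q₀ : ℂ → ℂ, Q₀ = fun z => U z * RPA_V l₁ a z / (RPA_V l₀ b z * g z) := ⟨_, rfl⟩
  have hden : ∀ z ∈ closedBall (0 : ℂ) 1, RPA_V l₀ b z * g z ≠ 0 := fun z hz =>
    mul_ne_zero (RPA_V_ne l₀ b hC.hb z (mem_closedBall_zero_iff.1 hz)) (hC.g_ne z (hsub hz))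
  have hQd : DifferentiableOn ℂ Q₀ (closedBall 0 1) := by
    rw [hQ₀]
    exact ((hC.U_diff.mono hsub).mul (RPA_V_diff l₁ a).differentiableOn).div
      ((RPA_V_diff l₀ b).differentiableOn.mul (hC.g_diff.mono hsub)) hden
  have hQpos : ∀ z : ℂ, ‖z‖ ≤ 1 → 0 < (Q₀ z).re := by
    refine RPA_min Q₀ hQd fun z hz => ?_
    have hzR : z ∈ ball (0 : ℂ) R := hsub (mem_closedBall_zero_iff.2 hz.le)
    rw [hQ₀]
    exact RPA_bdry l₁ l₀ a b hC.ha hC.hb hl₁ hl₀ z (g z) (U z) (z * deriv f z) (F z) hz (hC.g_ne z hzR)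
      (hC.F_eq z hzR) (hC.f_eq z hzR) (hC.pos z hz)
  have hs : 0 < (Q₀ 0).re := hQpos 0 (by rw [norm_zero]; exact zero_le_one)
  obtain ⟨s, hs2⟩ : ∃ s : ℝ, s = (Q₀ 0).re := ⟨_, rfl⟩
  have hs0 : 0 < s := by rw [hs2]; exact hs
  have hsc : (s : ℂ) ≠ 0 := Complex.ofReal_ne_zero.2 hs0.ne'
  obtain ⟨G, hG⟩ : ∃ G : ℂ → ℂ, G = fun z => g z / (g 0 * RPA_V l₁ a z) := ⟨_, rfl⟩
  have hle : ∀ z ∈ ball (0 : ℂ) 1, ‖z‖ ≤ 1 := fun z hz => (mem_ball_zero_iff.1 hz).le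
  have hVne : ∀ z ∈ ball (0 : ℂ) 1, RPA_V l₁ a z ≠ 0 := fun z hz => RPA_V_ne l₁ a hC.ha z (hle z hz)
  have hWne : ∀ z ∈ ball (0 : ℂ) 1, RPA_V l₀ b z ≠ 0 := fun z hz => RPA_V_ne l₀ b hC.hb z (hle z hz)
  refine ⟨l₀, g 0 * s, G, fun z => Q₀ z / s, ?_, ?_, ?_, ?_, ?_, ?_, ?_, ?_⟩
  · rw [hG]
    exact (hC.g_diff.mono hsub1).div ((differentiableOn_const _).mul (RPA_V_diff l₁ a).differentiableOn)
      fun z hz => mul_ne_zero hg0 (hVne z hz)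
  · rw [hG]
    simp only [RPA_V_zero, mul_one]
    exact div_self hg0
  · intro z hz
    rw [hG]
    exact div_ne_zero (hC.g_ne z (hsub1 hz)) (mul_ne_zero hg0 (hVne z hz))
  · exact hREQ F p a g l₁ hC.star (fun l => mem_ball_zero_iff.2 (hC.ha l)) (hC.g_diff.mono hsub1)
      (fun z hz => hC.g_ne z (hsub1 hz)) (fun z hz => hC.F_eq z (hsub1 hz)) hl₁ G hG
  · exact (hQd.mono ball_subset_closedBall).div_const _
  · rw [Complex.div_ofReal_re, ← hs2, div_self hs0.ne']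
  · intro z hz
    rw [Complex.div_ofReal_re]
    exact div_nonneg (hQpos z (hle z hz)).le hs0.le
  · intro z hz
    have hz' := hsub1 hz
    rw [hC.f_eq z hz', ← mul_prod_erase univ (fun l => z - b l) (mem_univ l₀), hl₀, sub_zero,
      prod_mul_distrib, hG, hQ₀]
    have hW := hWne z hz
    have hV := hVne z hz
    have hg := hC.g_ne z hz'
    change z * (∏ l ∈ univ.erase l₀, (z - b l)) * U z = g 0 * s * (z * ((∏ l ∈ univ.erase l₀, (z - b l)) *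
      RPA_V l₀ b z) * (g z / (g 0 * RPA_V l₁ a z) * (U z * RPA_V l₁ a z / (RPA_V l₀ b z * g z) / s)))
    field_simp

end Pool.Agent.GD
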